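import Pool.Agent.Q35.HB.Stm

/-!
# Project HB, job HEN: Hensel's lemma for power series
-/

set_option autoImplicit false

namespace Pool.Agent.Q225.HB

open Pool.Agent.Q35.HB Pool.Agent.Helper165.P1 Polynomial

theorem ps_injective (Ω : Type) [Field Ω] : Function.Injective (ps Ω) := by
  unfold ps
  rw [RingHom.coe_comp]
  exact (RingHom.injective _).comp HahnSeries.ofPowerSeries_injective

/-- Hensel's lemma -/
theorem lift_root {Ω : Type} [Field Ω] (f : Polynomial (PowerSeries Ω)) (hf : f.Monic) (r : Ω)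
    (h0 : (f.map (PowerSeries.constantCoeff (R := Ω))).eval r = 0)
    (h1 : (f.map (PowerSeries.constantCoeff (R := Ω))).derivative.eval r ≠ 0) :
    ∃ a : PowerSeries Ω, f.IsRoot a ∧ PowerSeries.constantCoeff (R := Ω) a = r := by
  have hc : ∀ p : Polynomial (PowerSeries Ω), PowerSeries.constantCoeff (R := Ω)
      (p.eval (PowerSeries.C r)) = (p.map (PowerSeries.constantCoeff (R := Ω))).eval r := by
    intro p
    have h2 : r = PowerSeries.constantCoeff (R := Ω) (PowerSeries.C r) := by simp
    rw [Polynomial.eval_map]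
    conv_rhs => rw [h2]
    exact (Polynomial.eval₂_at_apply _ _).symm
  have hH : HenselianRing (PowerSeries Ω) (Ideal.span {(PowerSeries.X : PowerSeries Ω)}) :=
    inferInstance
  obtain ⟨a, ha, ha'⟩ := hH.is_henselian f hf (PowerSeries.C r) (by
    rw [Ideal.mem_span_singleton, PowerSeries.X_dvd_iff, hc, h0]) (by
    refine IsUnit.map _ ?_
    rw [PowerSeries.isUnit_iff_constantCoeff, hc, isUnit_iff_ne_zero]
    rwa [← Polynomial.derivative_map])
  refine ⟨a, ha, ?_⟩
  rw [Ideal.mem_span_singleton, PowerSeries.X_dvd_iff, map_sub] at ha'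
  rw [sub_eq_zero.1 ha']
  simp

theorem hen : S_HEN := by
  classical
  intro Ω L _ _ _ _ ψ g hg z hz
  obtain ⟨φ, hφ⟩ : ∃ φ : L →+* Pui Ω, φ = (ps Ω).comp ψ := ⟨_, rfl⟩
  rw [← hφ] at hz
  obtain ⟨c, hc⟩ : ∃ c : L →+* Ω, c = (PowerSeries.constantCoeff (R := Ω)).comp ψ := ⟨_, rfl⟩
  have hchar : CharZero L := c.charZero
  let _ : Algebra L (Pui Ω) := φ.toAlgebra
  have halg : IsAlgebraic L z := by
    refine ⟨g, hg, ?_⟩
    rw [aeval_def, eval₂_eq_eval_map]
    exact hz
  have hint := halg.isIntegral
  obtain ⟨h, hh⟩ : ∃ h : Polynomial L, h = minpoly L z := ⟨_, rfl⟩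
  have hirr : Irreducible h := by rw [hh]; exact minpoly.irreducible hint
  have hmon : h.Monic := by rw [hh]; exact minpoly.monic hint
  have hroot : (h.map φ).IsRoot z := by
    have := minpoly.aeval L z
    rw [aeval_def, eval₂_eq_eval_map] at this
    rw [hh]
    exact this
  have hsep : (h.map c).Separable := hirr.separable.map
  have hcard : (h.map c).roots.toFinset.card = h.natDegree := by
    rw [Multiset.toFinset_card_of_nodup (nodup_roots hsep),
      ← (IsAlgClosed.splits (h.map c)).natDegree_eq_card_roots, natDegree_map]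
  have hlift : ∀ r : Ω, ∃ a : PowerSeries Ω, r ∈ (h.map c).roots.toFinset →
      (h.map ψ).IsRoot a ∧ PowerSeries.constantCoeff (R := Ω) a = r := by
    intro r
    by_cases hr : r ∈ (h.map c).roots.toFinset
    · have hne : h.map c ≠ 0 := (hmon.map c).ne_zero
      have h0 : (h.map c).eval r = 0 := by
        have := Multiset.mem_toFinset.1 hr
        exact (mem_roots hne).1 this
      have h1 : (h.map c).derivative.eval r ≠ 0 := by
        exact hsep.eval₂_derivative_ne_zero (RingHom.id Ω) (by simpa using h0)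
      have e1 : (h.map ψ).map (PowerSeries.constantCoeff (R := Ω)) = h.map c := by
        rw [Polynomial.map_map, ← hc]
      obtain ⟨a, ha, ha'⟩ := lift_root (h.map ψ) (hmon.map ψ) r (by rw [e1]; exact h0)
        (by rw [e1]; exact h1)
      exact ⟨a, fun _ => ⟨ha, ha'⟩⟩
    · exact ⟨0, fun h => absurd h hr⟩
  choose f hf using hlift
  have hsub : (h.map c).roots.toFinset.image (fun r => ps Ω (f r)) ⊆ (h.map φ).roots.toFinset := by
    intro y hy
    obtain ⟨r, hr, rfl⟩ := Finset.mem_image.1 hy
    rw [Multiset.mem_toFinset, mem_roots (hmon.map φ).ne_zero]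
    have h1 : eval (f r) (h.map ψ) = 0 := (hf r hr).1
    rw [IsRoot, hφ, ← Polynomial.map_map, Polynomial.eval_map, Polynomial.eval₂_at_apply, h1,
      map_zero]
  have hinj : Set.InjOn (fun r => ps Ω (f r)) ((h.map c).roots.toFinset : Set Ω) := by
    intro r hr r' hr' hrr
    have h1 := ps_injective Ω hrr
    rw [← (hf r hr).2, ← (hf r' hr').2, h1]
  have hle : (h.map φ).roots.toFinset.card
      ≤ ((h.map c).roots.toFinset.image (fun r => ps Ω (f r))).card := by
    rw [Finset.card_image_of_injOn hinj, hcard]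
    refine (Multiset.toFinset_card_le _).trans ((card_roots' _).trans (le_of_eq ?_))
    rw [natDegree_map]
  have heq := Finset.eq_of_subset_of_card_le hsub hle
  have hz2 : z ∈ (h.map φ).roots.toFinset := by
    rw [Multiset.mem_toFinset, mem_roots (hmon.map φ).ne_zero]
    exact hroot
  rw [← heq] at hz2
  obtain ⟨r, _, hr⟩ := Finset.mem_image.1 hz2
  exact ⟨f r, hr⟩

end Pool.Agent.Q225.HB
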