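import Pool.Agent.Q35.HB.Stm

/-!
# Project HB, job LINP: invariance under linear changes of the coordinates
-/

set_option autoImplicit false

namespace Pool.Agent.Q225.HB

open Pool.Agent.Q35.HB Pool.Agent.Q35.ST MvPolynomial

/-- the chain rule for polynomials -/
theorem chainA {ι R A : Type} [Fintype ι] [DecidableEq ι] [CommRing R] [CommRing A] [Algebra R A]
    (D : Derivation R A A) (φ : ι → A) (f : MvPolynomial ι R) :
    D (aeval φ f) = ∑ t, aeval φ (pderiv t f) * D (φ t) := by
  induction f using MvPolynomial.induction_on with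
  | C c =>
    rw [aeval_C, D.map_algebraMap]
    symm
    refine Finset.sum_eq_zero fun t _ => ?_
    rw [pderiv_C, map_zero, zero_mul]
  | add p q hp hq =>
    rw [map_add, map_add, hp, hq, ← Finset.sum_add_distrib]
    refine Finset.sum_congr rfl fun t _ => ?_
    rw [map_add, map_add, add_mul]
  | mul_X p s hp =>
    rw [map_mul, aeval_X, D.leibniz, hp, smul_eq_mul, smul_eq_mul, Finset.mul_sum]
    have h1 : ∀ t, aeval φ (pderiv t (p * X s)) * D (φ t)
        = φ s * (aeval φ (pderiv t p) * D (φ t)) + (if s = t then aeval φ p * D (φ s) else 0) := by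
      intro t
      rw [pderiv_mul, map_add, map_mul, map_mul, aeval_X, pderiv_X]
      by_cases h : s = t
      · subst h
        rw [if_pos rfl, Pi.single_eq_same, map_one]
        ring
      · rw [if_neg h, Pi.single_eq_of_ne h, map_zero]
        ring
    rw [Finset.sum_congr rfl fun t _ => h1 t, Finset.sum_add_distrib, Finset.sum_ite_eq,
      if_pos (Finset.mem_univ _)]
    ring

section
variable {κ : Type} {n : κ → ℕ} {k : Type} [Field k]

theorem mh_sum {ι : Type} (s : Finset ι) {T : Set κ} {u : κ → ℕ} (f : ι → MvPolynomial (Pc n) k)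
    (h : ∀ i ∈ s, MH T u (f i)) : MH T u (∑ i ∈ s, f i) := by
  classical
  intro m hm l hl
  obtain ⟨i, hi, him⟩ : ∃ i ∈ s, m ∈ (f i).support := by
    by_contra hcon
    push Not at hcon
    rw [mem_support_iff, coeff_sum] at hm
    apply hm
    exact Finset.sum_eq_zero fun i hi => notMem_support_iff.1 (hcon i hi)
  exact h i hi m him l hl

theorem mh_C {T : Set κ} (c : k) : MH T (fun _ => 0) (C c : MvPolynomial (Pc n) k) := by
  classical
  intro m hm l _
  have h1 : m = 0 := by
    by_contra hne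
    rw [mem_support_iff, coeff_C, if_neg (Ne.symm hne)] at hm
    exact hm rfl
  subst h1
  simp

theorem mh_X [DecidableEq κ] {T : Set κ} (s : Pc n) :
    MH T (fun l => if l = s.1 then 1 else 0) (X s : MvPolynomial (Pc n) k) := by
  classical
  intro m hm l _
  have h1 : m = Finsupp.single s 1 := by
    by_contra hne
    rw [mem_support_iff, coeff_X, if_neg (Ne.symm hne)] at hm
    exact hm rfl
  subst h1
  obtain ⟨j, i⟩ := s
  show ∑ i', (Finsupp.single (⟨j, i⟩ : Pc n) 1 : Pc n →₀ ℕ) ⟨l, i'⟩ = if l = j then 1 else 0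
  by_cases hlj : l = j
  · subst hlj
    rw [if_pos rfl, Finset.sum_eq_single i]
    · simp
    · intro b _ hb
      rw [Finsupp.single_apply, if_neg]
      intro h
      apply hb
      simpa using h.symm
    · simp
  · rw [if_neg hlj]
    refine Finset.sum_eq_zero (fun b _ => ?_)
    rw [Finsupp.single_apply, if_neg]
    intro h
    exact hlj (Sigma.mk.inj_iff.1 h).1.symm

theorem mh_congr {T : Set κ} {u v : κ → ℕ} {f : MvPolynomial (Pc n) k} (h : MH T u f)
    (huv : ∀ l, u l = v l) : MH T v f := by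
  intro m hm l hl
  rw [← huv]
  exact h m hm l hl

theorem mh_one {T : Set κ} : MH T (fun _ => 0) (1 : MvPolynomial (Pc n) k) := by
  rw [← C_1]
  exact mh_C 1

theorem mh_pow {T : Set κ} {u : κ → ℕ} {f : MvPolynomial (Pc n) k} (h : MH T u f) (j : ℕ) :
    MH T (fun l => j * u l) (f ^ j) := by
  induction j with
  | zero =>
    rw [pow_zero]
    exact mh_congr mh_one fun l => by ring
  | succ j ih =>
    rw [pow_succ]
    exact mh_congr (ih.mul h) fun l => by ring

theorem mh_prod {ι : Type} (s : Finset ι) {T : Set κ} (u : ι → κ → ℕ)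
    (f : ι → MvPolynomial (Pc n) k) (h : ∀ i ∈ s, MH T (u i) (f i)) :
    MH T (fun l => ∑ i ∈ s, u i l) (∏ i ∈ s, f i) := by
  classical
  induction s using Finset.induction_on with
  | empty =>
    rw [Finset.prod_empty]
    exact mh_congr mh_one fun l => by rw [Finset.sum_empty]
  | insert a s ha ih =>
    rw [Finset.prod_insert ha]
    exact mh_congr ((h a (Finset.mem_insert_self _ _)).mul
      (ih fun i hi => h i (Finset.mem_insert_of_mem hi))) fun l => by rw [Finset.sum_insert ha]

theorem mh_phi [DecidableEq κ] {T : Set κ}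
    (g : ∀ l : κ, Matrix (Fin (n l + 1)) (Fin (n l + 1)) k) (s : Pc n) :
    MH T (fun l => if l = s.1 then 1 else 0)
      (∑ j, C (g s.1 s.2 j) * X (⟨s.1, j⟩ : Pc n) : MvPolynomial (Pc n) k) := by
  refine mh_sum _ _ fun j _ => ?_
  exact mh_congr ((mh_C _).mul (mh_X _)) fun l => by rw [zero_add]

theorem mh_lin [Fintype κ] [DecidableEq κ]
    (g : ∀ l : κ, Matrix (Fin (n l + 1)) (Fin (n l + 1)) k) {u : κ → ℕ}
    {F : MvPolynomial (Pc n) k} (hF : MH Set.univ u F) : MH Set.univ u (lin g F) := by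
  classical
  unfold lin
  rw [aeval_def, eval₂_eq']
  refine mh_sum _ _ fun m hm => ?_
  have h1 := mh_prod (T := Set.univ) (Finset.univ : Finset (Pc n))
    (fun s l => m s * if l = s.1 then 1 else 0) _ (fun s _ => mh_pow (mh_phi g s) (m s))
  refine mh_congr ((mh_C (coeff m F)).mul h1) fun l => ?_
  rw [zero_add, ← hF m hm l (Set.mem_univ l), Fintype.sum_sigma, Finset.sum_eq_single l]
  · refine Finset.sum_congr rfl fun i _ => ?_
    rw [if_pos rfl, mul_one]
  · intro j _ hj
    refine Finset.sum_eq_zero fun i _ => ?_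
    rw [if_neg (Ne.symm hj), mul_zero]
  · intro h
    exact absurd (Finset.mem_univ _) h

/-- the transformed point -/
def lz (g : ∀ l : κ, Matrix (Fin (n l + 1)) (Fin (n l + 1)) k) (z : Pc n → k) : Pc n → k :=
  fun s => ∑ j, g s.1 s.2 j * z ⟨s.1, j⟩

theorem eval_lin (g : ∀ l : κ, Matrix (Fin (n l + 1)) (Fin (n l + 1)) k) (z : Pc n → k)
    (F : MvPolynomial (Pc n) k) : eval z (lin g F) = eval (lz g z) F := by
  have h1 : (eval z).comp ((lin g : MvPolynomial (Pc n) k →ₐ[k] MvPolynomial (Pc n) k) :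
      MvPolynomial (Pc n) k →+* MvPolynomial (Pc n) k) = eval (lz g z) := by
    apply MvPolynomial.ringHom_ext
    · intro c
      unfold lin
      simp
    · intro s
      unfold lin lz
      simp
  exact congrArg (fun φ : MvPolynomial (Pc n) k →+* k => φ F) h1

theorem nz_lz (g : ∀ l : κ, Matrix (Fin (n l + 1)) (Fin (n l + 1)) k)
    (hg : ∀ l, IsUnit (g l).det) {z : Pc n → k} (hz : Nz Set.univ z) : Nz Set.univ (lz g z) := by
  intro l hl
  by_contra hcon
  push Not at hcon
  obtain ⟨i, hi⟩ := hz l hl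
  apply hi
  have h1 : (g l).mulVec (fun j => z ⟨l, j⟩) = 0 := by
    funext i
    exact hcon i
  have h2 : Function.Injective (g l).mulVec :=
    Matrix.mulVec_injective_iff_isUnit.2 ((Matrix.isUnit_iff_isUnit_det _).2 (hg l))
  have h3 := h2 (h1.trans (Matrix.mulVec_zero _).symm)
  exact congrFun h3 i

theorem pderiv_lin [Fintype κ] [DecidableEq κ]
    (g : ∀ l : κ, Matrix (Fin (n l + 1)) (Fin (n l + 1)) k)
    (F : MvPolynomial (Pc n) k) (l : κ) (j : Fin (n l + 1)) :
    pderiv (⟨l, j⟩ : Pc n) (lin g F)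
      = ∑ i, lin g (pderiv (⟨l, i⟩ : Pc n) F) * C (g l i j) := by
  unfold lin
  rw [chainA, Fintype.sum_sigma, Finset.sum_eq_single l]
  · refine Finset.sum_congr rfl fun i _ => ?_
    congr 1
    rw [map_sum, Finset.sum_eq_single j]
    · rw [pderiv_C_mul, pderiv_X_self, mul_one]
    · intro j' _ hj'
      rw [pderiv_C_mul, pderiv_X_of_ne, mul_zero]
      intro h
      exact hj' (eq_of_heq (Sigma.mk.inj_iff.1 h).2)
    · intro h
      exact absurd (Finset.mem_univ _) h
  · intro l' _ hl'
    refine Finset.sum_eq_zero fun i _ => ?_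
    rw [map_sum, Finset.sum_eq_zero, mul_zero]
    intro j' _
    rw [pderiv_C_mul, pderiv_X_of_ne, mul_zero]
    intro h
    exact hl' (Sigma.mk.inj_iff.1 h).1
  · intro h
    exact absurd (Finset.mem_univ _) h

theorem smth_lin [Fintype κ] [DecidableEq κ]
    (g : ∀ l : κ, Matrix (Fin (n l + 1)) (Fin (n l + 1)) k)
    (hg : ∀ l, IsUnit (g l).det) {F : MvPolynomial (Pc n) k} (hF : Smth F) : Smth (lin g F) := by
  intro z hz h0
  rw [eval_lin] at h0
  obtain ⟨⟨l, i⟩, hs⟩ := hF (lz g z) (nz_lz g hg hz) h0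
  by_contra hcon
  push Not at hcon
  apply hs
  have h1 : (g l).transpose.mulVec (fun i => eval (lz g z) (pderiv (⟨l, i⟩ : Pc n) F)) = 0 := by
    funext j
    have h2 := hcon ⟨l, j⟩
    rw [pderiv_lin, map_sum] at h2
    show ∑ i, g l i j * eval (lz g z) (pderiv (⟨l, i⟩ : Pc n) F) = 0
    rw [← h2]
    refine Finset.sum_congr rfl fun i _ => ?_
    rw [map_mul, eval_C, eval_lin, mul_comm]
  have h2 : Function.Injective (g l).transpose.mulVec := by
    refine Matrix.mulVec_injective_iff_isUnit.2 ((Matrix.isUnit_iff_isUnit_det _).2 ?_)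
    rw [Matrix.det_transpose]
    exact hg l
  have h3 := h2 (h1.trans (Matrix.mulVec_zero _).symm)
  exact congrFun h3 i

theorem map_lin {K : Type} [Field K] (f : k →+* K)
    (g : ∀ l : κ, Matrix (Fin (n l + 1)) (Fin (n l + 1)) k) (F : MvPolynomial (Pc n) k) :
    map f (lin g F) = lin (fun l => (g l).map f) (map f F) := by
  have h1 : (map f).comp ((lin g : MvPolynomial (Pc n) k →ₐ[k] MvPolynomial (Pc n) k) :
      MvPolynomial (Pc n) k →+* MvPolynomial (Pc n) k) =
      ((lin (fun l => (g l).map f) : MvPolynomial (Pc n) K →ₐ[K] MvPolynomial (Pc n) K) :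
      MvPolynomial (Pc n) K →+* MvPolynomial (Pc n) K).comp (map f) := by
    apply MvPolynomial.ringHom_ext
    · intro c
      unfold lin
      simp
    · intro s
      unfold lin
      simp
  exact congrArg (fun φ : MvPolynomial (Pc n) k →+* MvPolynomial (Pc n) K => φ F) h1

end

theorem linp : S_LINP := by
  intro κ _ _ n k _ _ F hF hS g hg
  refine ⟨mh_lin g hF, ?_⟩
  rw [map_lin]
  refine smth_lin _ (fun l => ?_) hS
  have h1 := (hg l).map (algebraMap k (AlgebraicClosure k))
  rw [RingHom.map_det] at h1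
  exact h1

end Pool.Agent.Q225.HB
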