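import Pool.Agent.Q35.HB.Stm

/-!
# Project HB, job STB: stability under the tangential vector field
-/

set_option autoImplicit false

namespace Pool.Agent.Q225.HB

open Pool.Agent.Q35.HB MvPolynomial

/-- the chain rule -/
theorem chain {ι k Ω : Type} [Fintype ι] [DecidableEq ι] [Field k] [Field Ω] [Algebra k Ω]
    (E : IntermediateField k Ω) (D : Derivation E Ω Ω) (ξ : ι → Ω) (f : MvPolynomial ι k) :
    D (aeval ξ f) = ∑ t, aeval ξ (pderiv t f) * D (ξ t) := by
  induction f using MvPolynomial.induction_on with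
  | C c =>
    rw [aeval_C, IsScalarTower.algebraMap_apply k E Ω, D.map_algebraMap]
    symm
    refine Finset.sum_eq_zero fun t _ => ?_
    rw [pderiv_C, map_zero, zero_mul]
  | add p q hp hq =>
    rw [map_add, map_add, hp, hq, ← Finset.sum_add_distrib]
    refine Finset.sum_congr rfl fun t _ => ?_
    rw [map_add, map_add, add_mul]
  | mul_X p s hp =>
    rw [map_mul, aeval_X, D.leibniz, hp, smul_eq_mul, smul_eq_mul, Finset.mul_sum]
    have h1 : ∀ t, aeval ξ (pderiv t (p * X s)) * D (ξ t)
        = ξ s * (aeval ξ (pderiv t p) * D (ξ t)) + (if s = t then aeval ξ p * D (ξ s) else 0) := by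
      intro t
      rw [pderiv_mul, map_add, map_mul, map_mul, aeval_X, pderiv_X]
      by_cases h : s = t
      · subst h
        rw [if_pos rfl, Pi.single_eq_same, map_one]
        ring
      · rw [if_neg h, Pi.single_eq_of_ne h, map_zero]
        ring
    rw [Finset.sum_congr rfl fun t _ => h1 t, Finset.sum_add_distrib, Finset.sum_ite_eq,
      if_pos (Finset.mem_univ _)]
    ring

theorem exists_der (hD : S_DEXT) {k Ω : Type} [Field k] [CharZero k] [Field Ω] [Algebra k Ω]
    (E : IntermediateField k Ω) {z : Ω} (hz : Transcendental E z) :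
    ∃ D : Derivation E Ω Ω, D z = 1 := by
  have hc : CharZero E := charZero_of_injective_algebraMap (algebraMap k E).injective
  have hai : AlgebraicIndependent E (fun _ : Unit => z) :=
    algebraicIndependent_unique_type_iff.2 hz
  obtain ⟨D, h⟩ := hD Unit E Ω (fun _ => z) (fun _ => 1) (fun f hf => by
    have h0 : f = 0 := (algebraicIndependent_iff.1 hai) f hf
    subst h0
    simp)
  exact ⟨D, h ()⟩

theorem stb (hD : S_DEXT) : S_STB := by
  intro ι k Ω _ _ _ _ _ _ F ξ i j hij hF htr f hf
  have hE : ∀ D : Derivation (Lo k ξ i j) Ω Ω, ∀ t, t ≠ i ∧ t ≠ j → D (ξ t) = 0 := by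
    intro D t ht
    have hmem : ξ t ∈ Lo k ξ i j :=
      IntermediateField.subset_adjoin k _ ⟨t, ht, rfl⟩
    exact D.map_algebraMap (⟨ξ t, hmem⟩ : Lo k ξ i j)
  have key : ∀ D : Derivation (Lo k ξ i j) Ω Ω, ∀ g : MvPolynomial ι k, aeval ξ g = 0 →
      aeval ξ (pderiv i g) * D (ξ i) + aeval ξ (pderiv j g) * D (ξ j) = 0 := by
    intro D g hg
    have h1 := chain (Lo k ξ i j) D ξ g
    rw [hg, map_zero, Fintype.sum_eq_add i j hij (fun t ht => by rw [hE D t ht, mul_zero])] at h1
    exact h1.symm
  rw [map_sub, map_mul, map_mul]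
  rcases htr with h | h
  · obtain ⟨D, h1⟩ := exists_der hD _ h
    have a1 := key D F hF
    have a2 := key D f hf
    rw [h1] at a1 a2
    linear_combination (aeval ξ (pderiv j f)) * a1 - (aeval ξ (pderiv j F)) * a2
  · obtain ⟨D, h1⟩ := exists_der hD _ h
    have a1 := key D F hF
    have a2 := key D f hf
    rw [h1] at a1 a2
    linear_combination (aeval ξ (pderiv i F)) * a2 - (aeval ξ (pderiv i f)) * a1

end Pool.Agent.Q225.HB
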